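import Pool.Agent.H58.FL.TargetsD

/-!
# MP_6a7a6f_gt, board fld, row HEX: no hexagons
-/

set_option autoImplicit false

namespace Pool.Agent.H22.FL

open Pool.Agent.H58.FL Pool.Agent.H59 Pool.Agent.H48.FR

section

variable {E : Type} [NormedAddCommGroup E] [InnerProductSpace ℂ E]

private theorem cl_comp {k : ℕ} {p : Fin 6 → E} (hp : Cl p) (s : Fin k → Fin 6) :
    Cl (fun i => p (s i)) := ⟨fun _ => hp.1 _, fun _ _ => hp.2 _ _⟩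

private theorem exch (hR5 : Pool.Agent.H58.FL.T_R5) {p : Fin 6 → E} (hp : Cl p)
    (a b c d e : Fin 6) (h1 : mn (p a) (p b) (p c) (p d) ≠ 0)
    (h2 : mn (p e) (p b) (p c) (p d) ≠ 0) :
    mn (p a) (p e) (p c) (p d) = 0 ∧ mn (p a) (p b) (p e) (p d) = 0 ∧
      mn (p a) (p b) (p c) (p e) = 0 := by
  have h := hR5 E (fun i => p (![a, b, c, d, e] i)) (cl_comp hp _) h1
  rcases h with h | h | h | h
  · exact ⟨h.2.1, h.2.2.1, h.2.2.2⟩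
  · exact absurd h.1 h2
  · exact absurd h.1 h2
  · exact absurd h.1 h2

private theorem sw (hMN4 : Pool.Agent.H58.FL.T_MN4) {p : Fin 6 → E} (hp : Cl p)
    (a b c d : Fin 6) :
    (mn (p a) (p b) (p c) (p d) = 0 ∨ mn (p a) (p b) (p c) (p d) = 1 ∨
      mn (p a) (p b) (p c) (p d) = -1) ∧
    mn (p b) (p a) (p c) (p d) = -mn (p a) (p b) (p c) (p d) ∧
    mn (p a) (p c) (p b) (p d) = -mn (p a) (p b) (p c) (p d) ∧
    mn (p a) (p b) (p d) (p c) = -mn (p a) (p b) (p c) (p d) :=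
  (hMN4 E).2.1 (fun i => p (![a, b, c, d] i)) (cl_comp hp _)

private theorem arsw (hMN4 : Pool.Agent.H58.FL.T_MN4) {p : Fin 6 → E} (hp : Cl p)
    (a b c : Fin 6) : ar (p a) (p c) (p b) = -ar (p a) (p b) (p c) :=
  ((hMN4 E).1 (fun i => p (![a, b, c] i)) (cl_comp hp _)).2.1

private theorem far (hOP2 : Pool.Agent.H58.FL.T_OP2) {p : Fin 6 → E} (hp : Cl p)
    (a b c d : Fin 6) (h : mn (p a) (p b) (p c) (p d) ≠ 0) :
    Fr (p a) (p b) ∧ Fr (p a) (p c) ∧ Fr (p a) (p d) ∧ Fr (p b) (p a) ∧ Fr (p b) (p c) ∧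
      Fr (p b) (p d) ∧ Fr (p c) (p a) ∧ Fr (p c) (p b) ∧ Fr (p c) (p d) ∧ Fr (p d) (p a) ∧
      Fr (p d) (p b) ∧ Fr (p d) (p c) := by
  have h1 := hOP2 E (fun i => p (![a, b, c, d] i)) (cl_comp hp _) h
  exact ⟨h1 0 1 (by decide), h1 0 2 (by decide), h1 0 3 (by decide), h1 1 0 (by decide),
    h1 1 2 (by decide), h1 1 3 (by decide), h1 2 0 (by decide), h1 2 1 (by decide),
    h1 2 3 (by decide), h1 3 0 (by decide), h1 3 1 (by decide), h1 3 2 (by decide)⟩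

end

theorem pf_HEX (hW4 : Pool.Agent.H58.FL.T_W4) (hMN4 : Pool.Agent.H58.FL.T_MN4)
    (hOP2 : Pool.Agent.H58.FL.T_OP2) (hR5 : Pool.Agent.H58.FL.T_R5) :
    Pool.Agent.H58.FL.T_HEX := by
  intro E _ _ p hp n0 n1 n2 n3 n4 n5
  -- swaps
  have W := fun a b c d => sw hMN4 hp a b c d
  have s1 := fun a b c d => (W a b c d).2.1
  have s2 := fun a b c d => (W a b c d).2.2.1
  have s3 := fun a b c d => (W a b c d).2.2.2
  -- omit 5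
  have a1 : mn (p 4) (p 1) (p 2) (p 3) = -mn (p 1) (p 2) (p 3) (p 4) := by
    rw [s1 1 4 2 3, s2 1 2 4 3, s3 1 2 3 4]
    ring
  obtain ⟨z1, z2, z3⟩ := exch hR5 hp 0 1 2 3 4 n0 (by rw [a1]; exact neg_ne_zero.2 n1)
  have y1 : mn (p 0) (p 2) (p 3) (p 4) = 0 := by
    rw [s3 0 2 4 3, s2 0 4 2 3, z1]
    simp
  have y2 : mn (p 0) (p 1) (p 3) (p 4) = 0 := by
    rw [s3 0 1 4 3, z2]
    simp
  -- omit 0
  have a2 : mn (p 5) (p 2) (p 3) (p 4) = -mn (p 2) (p 3) (p 4) (p 5) := by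
    rw [s1 2 5 3 4, s2 2 3 5 4, s3 2 3 4 5]
    ring
  obtain ⟨x1, x2, x3⟩ := exch hR5 hp 1 2 3 4 5 n1 (by rw [a2]; exact neg_ne_zero.2 n2)
  have y3 : mn (p 1) (p 3) (p 4) (p 5) = 0 := by
    rw [s3 1 3 5 4, s2 1 5 3 4, x1]
    simp
  have y4 : mn (p 1) (p 2) (p 4) (p 5) = 0 := by
    rw [s3 1 2 5 4, x2]
    simp
  -- omit 1
  have a3 : mn (p 3) (p 4) (p 5) (p 0) = -mn (p 0) (p 3) (p 4) (p 5) := by
    rw [s3 3 4 0 5, s2 3 0 4 5, s1 0 3 4 5]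
    ring
  have n3' : mn (p 0) (p 3) (p 4) (p 5) ≠ 0 := by
    intro h
    rw [h, neg_zero] at a3
    exact n3 a3
  obtain ⟨w1, w2, w3⟩ := exch hR5 hp 2 3 4 5 0 n2 n3'
  have y5 : mn (p 0) (p 2) (p 4) (p 5) = 0 := by
    rw [s1 2 0 4 5, w1]
    simp
  have y6 : mn (p 0) (p 2) (p 3) (p 5) = 0 := by
    rw [s1 2 0 3 5, s2 2 3 0 5, w2]
    simp
  -- omit 2
  have a4 : mn (p 4) (p 5) (p 0) (p 1) = -mn (p 1) (p 4) (p 5) (p 0) := by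
    rw [s3 4 5 1 0, s2 4 1 5 0, s1 1 4 5 0]
    ring
  have n4' : mn (p 1) (p 4) (p 5) (p 0) ≠ 0 := by
    intro h
    rw [h, neg_zero] at a4
    exact n4 a4
  obtain ⟨v1, v2, v3⟩ := exch hR5 hp 3 4 5 0 1 n3 n4'
  have y7 : mn (p 0) (p 1) (p 3) (p 5) = 0 := by
    rw [s1 1 0 3 5, s2 1 3 0 5, s3 1 3 5 0, s1 3 1 5 0, v1]
    simp
  -- cocycle
  have C := (hMN4 E).2.2
  have c1 := C (p 0) (p 1) (p 2) (p 3) (p 4)
  have c2 := C (p 1) (p 2) (p 3) (p 4) (p 5)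
  have c3 := C (p 0) (p 2) (p 3) (p 4) (p 5)
  rw [y1, y2, z3] at c1
  rw [y3, y4, x3] at c2
  rw [y5, y6, y1] at c3
  have e1 : mn (p 0) (p 3) (p 4) (p 5) = mn (p 0) (p 1) (p 2) (p 3) := by linarith
  -- the four tetrahedra
  have t1 : mn (p 0) (p 3) (p 1) (p 2) = mn (p 0) (p 1) (p 2) (p 3) := by
    rw [s2 0 1 3 2, s3 0 1 2 3]
    ring
  have t2 : mn (p 0) (p 3) (p 2) (p 4) = 0 := by
    rw [s2 0 2 3 4, y1]
    simp
  have t3 : mn (p 0) (p 3) (p 5) (p 1) = 0 := by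
    rw [s3 0 3 1 5, s2 0 1 3 5, y7]
    simp
  have r1 := arsw hMN4 hp 0 1 5
  have r2 := arsw hMN4 hp 0 4 5
  have r3 := arsw hMN4 hp 0 2 4
  have r4 := arsw hMN4 hp 0 1 2
  have r5 := arsw hMN4 hp 3 1 2
  have r6 := arsw hMN4 hp 3 2 4
  have r7 := arsw hMN4 hp 3 4 5
  have r8 := arsw hMN4 hp 3 5 1
  have hpi := Real.pi_pos
  have D : ∀ a b c d : E, mn a b c d * (2 * Real.pi) =
      ar b c d - ar a c d + ar a b d - ar a b c := by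
    intro a b c d
    unfold mn
    field_simp
  have d1 := D (p 0) (p 3) (p 1) (p 2)
  have d2 := D (p 0) (p 3) (p 2) (p 4)
  have d3 := D (p 0) (p 3) (p 4) (p 5)
  have d4 := D (p 0) (p 3) (p 5) (p 1)
  rw [t1] at d1
  rw [t2] at d2
  rw [e1] at d3
  rw [t3] at d4
  -- the spokes
  have f1 := far hOP2 hp 0 1 2 3 n0
  have f2 := far hOP2 hp 2 3 4 5 n2
  have f3 := far hOP2 hp 3 4 5 0 n3
  have S : ∀ a b : Fin 6, Fr (p a) (p b) → Sp (p a) (p b) := fun a b h =>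
    ⟨hp.1 b, hp.2 a b, h⟩
  have S31 : Sp (p 3) (p 1) := S 3 1 f1.2.2.2.2.2.2.2.2.2.2.1
  have S32 : Sp (p 3) (p 2) := S 3 2 f1.2.2.2.2.2.2.2.2.2.2.2
  have S34 : Sp (p 3) (p 4) := S 3 4 f2.2.2.2.2.1
  have S35 : Sp (p 3) (p 5) := S 3 5 f2.2.2.2.2.2.1
  have S01 : Sp (p 0) (p 1) := S 0 1 f1.1
  have S02 : Sp (p 0) (p 2) := S 0 2 f1.2.1
  have S04 : Sp (p 0) (p 4) := S 0 4 f3.2.2.2.2.2.2.2.2.2.2.1
  have S05 : Sp (p 0) (p 5) := S 0 5 f3.2.2.2.2.2.2.2.2.2.2.2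
  have A := hp.2
  have w1 := hW4 E (p 3) (p 1) (p 2) (p 4) (p 5) (hp.1 3) S31 S32 S34 S35 (A _ _) (A _ _)
    (A _ _) (A _ _)
  have w2 := hW4 E (p 0) (p 1) (p 5) (p 4) (p 2) (hp.1 0) S01 S05 S04 S02 (A _ _) (A _ _)
    (A _ _) (A _ _)
  have w3 := hW4 E (p 3) (p 5) (p 4) (p 2) (p 1) (hp.1 3) S35 S34 S32 S31 (A _ _) (A _ _)
    (A _ _) (A _ _)
  have w4 := hW4 E (p 0) (p 2) (p 4) (p 5) (p 1) (hp.1 0) S02 S04 S05 S01 (A _ _) (A _ _)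
    (A _ _) (A _ _)
  rcases (W 0 1 2 3).1 with h | h | h
  · exact n0 h
  · rw [h] at d1 d3
    linarith
  · rw [h] at d1 d3
    linarith

end Pool.Agent.H22.FL
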