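import Pool.Agent.H58.FL.TargetsD

/-!
# MP_6a7a6f_gt, board fld, row P4A: one edge of a wheel with four spokes, large phase
-/

set_option autoImplicit false

namespace Pool.Agent.H22.FL

open Pool.Agent.H58.FL Pool.Agent.H59 Pool.Agent.H48.FR

/-- the product formula: the second claim is sharp at `u = 0` -/
private theorem sharp {g S : ℝ} (hg : 2618 / 1000 < g)
    (hS : S = Real.cos (3 * Real.pi / 20) * g - Real.cos (Real.pi / 20)) {φ : ℝ}
    (h1 : 5 * Real.pi / 8 ≤ φ) (h2 : φ ≤ 19 * Real.pi / 20) :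
    Real.cos φ + g * Real.cos (53 * Real.pi / 100 - 2 / 5 * φ) ≤ S := by
  have hpi := Real.pi_pos
  obtain ⟨u, hu⟩ : ∃ u, u = 19 * Real.pi / 20 - φ := ⟨_, rfl⟩
  have hu0 : 0 ≤ u := by rw [hu]; linarith
  have hu1 : u ≤ 13 * Real.pi / 40 := by rw [hu]; linarith
  have e1 : Real.cos φ = -Real.cos (Real.pi / 20 + u) := by
    rw [← Real.cos_pi_sub]
    congr 1
    rw [hu]
    ring
  have e2 : 53 * Real.pi / 100 - 2 / 5 * φ = 3 * Real.pi / 20 + 2 / 5 * u := by
    rw [hu]
    ring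
  rw [e1, e2, hS]
  have e3 : Real.cos (3 * Real.pi / 20 + 2 / 5 * u) - Real.cos (3 * Real.pi / 20) =
      -2 * Real.sin (3 * Real.pi / 20 + u / 5) * Real.sin (u / 5) := by
    rw [Real.cos_sub_cos]
    congr 2
    · congr 1
      ring
    · ring
  have e4 : Real.cos (Real.pi / 20 + u) - Real.cos (Real.pi / 20) =
      -2 * Real.sin (Real.pi / 20 + u / 2) * Real.sin (u / 2) := by
    rw [Real.cos_sub_cos]
    congr 2
    · congr 1
      ring
    · ring
  -- `2/5 sin (u/2) ≤ sin (u/5)`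
  have e5 : 2 / 5 * Real.sin (u / 2) ≤ Real.sin (u / 5) := by
    have hc := strictConcaveOn_sin_Icc.concaveOn
    have m0 : (0 : ℝ) ∈ Set.Icc 0 Real.pi := ⟨le_refl _, hpi.le⟩
    have m1 : u / 2 ∈ Set.Icc 0 Real.pi := ⟨by linarith, by linarith⟩
    have := hc.2 m0 m1 (show (0 : ℝ) ≤ 3 / 5 by norm_num) (show (0 : ℝ) ≤ 2 / 5 by norm_num)
      (by norm_num)
    simp only [smul_eq_mul, Real.sin_zero, mul_zero, zero_add] at this
    have e : (2 : ℝ) / 5 * (u / 2) = u / 5 := by ring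
    rw [e] at this
    exact this
  have e6 : Real.sin (Real.pi / 20 + u / 2) ≤ Real.sin (3 * Real.pi / 20 + u / 5) := by
    apply Real.sin_le_sin_of_le_of_le_pi_div_two
    · linarith
    · linarith
    · linarith
  have p1 : 0 ≤ Real.sin (Real.pi / 20 + u / 2) :=
    Real.sin_nonneg_of_nonneg_of_le_pi (by linarith) (by linarith)
  have p2 : 0 ≤ Real.sin (u / 2) :=
    Real.sin_nonneg_of_nonneg_of_le_pi (by linarith) (by linarith)
  have p3 : Real.sin (Real.pi / 20 + u / 2) * Real.sin (u / 2) ≤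
      Real.sin (3 * Real.pi / 20 + u / 5) * Real.sin (u / 2) := mul_le_mul_of_nonneg_right e6 p2
  have p4 : Real.sin (3 * Real.pi / 20 + u / 5) * (2 / 5 * Real.sin (u / 2)) ≤
      Real.sin (3 * Real.pi / 20 + u / 5) * Real.sin (u / 5) :=
    mul_le_mul_of_nonneg_left e5 (p1.trans e6)
  have p5 : 0 ≤ Real.sin (3 * Real.pi / 20 + u / 5) * Real.sin (u / 2) :=
    mul_nonneg (p1.trans e6) p2
  have p6 : 5 / 2 * (Real.sin (3 * Real.pi / 20 + u / 5) * (2 / 5 * Real.sin (u / 2))) ≤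
      g * (Real.sin (3 * Real.pi / 20 + u / 5) * Real.sin (u / 5)) := by
    refine mul_le_mul (by linarith) p4 ?_ (by linarith)
    exact mul_nonneg (p1.trans e6) (by linarith)
  nlinarith [p3, p6, e3, e4]

private theorem sin_le_add (ε : ℝ) (h : -(22 / 100) ≤ ε) : Real.sin ε ≤ ε + 3 / 1000 := by
  rcases le_or_gt 0 ε with h0 | h0
  · have := Real.sin_le h0
    linarith
  · have h1 := Real.sin_gt_sub_cube (x := -ε) (by linarith)
    rw [Real.sin_neg] at h1
    have h2 : (-ε) ^ 3 ≤ (22 / 100) ^ 3 := by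
      apply pow_le_pow_left₀ (by linarith)
      linarith
    norm_num at h2
    nlinarith

private theorem neg_sin_le (y : ℝ) :
    -Real.sin y ≤ -y + max 0 y ^ 3 / 4 := by
  rcases le_or_gt y 0 with h0 | h0
  · have := Real.sin_le (x := -y) (by linarith)
    rw [Real.sin_neg] at this
    rw [max_eq_left h0]
    linarith
  · have h1 := Real.sin_gt_sub_cube h0
    rw [max_eq_right h0.le]
    have h2 : 0 < y ^ 3 := pow_pos h0 3
    linarith

/-- the interval of the small phases -/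
private theorem small {φ : ℝ} (h1 : 3 * Real.pi / 8 ≤ φ) (h2 : φ ≤ 5 * Real.pi / 8) :
    (Real.cos φ + Real.cos (11 * Real.pi / 20 - 2 / 5 * φ) < 743 / 1000) ∧
    ∀ g : ℝ, g < 26182 / 10000 → 2618 / 1000 < g →
      Real.cos φ + g * Real.cos (11 * Real.pi / 20 - 2 / 5 * φ) < 134 / 100 := by
  have hpi := Real.pi_pos
  have hpl : 3.1415 < Real.pi := Real.pi_gt_d4
  have hpu : Real.pi < 3.1416 := Real.pi_lt_d4
  obtain ⟨y, hy⟩ : ∃ y, y = φ - Real.pi / 2 := ⟨_, rfl⟩
  have hy0 : -(3927 / 10000) ≤ y := by rw [hy]; linarith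
  have hy1 : y ≤ 3927 / 10000 := by rw [hy]; linarith
  have e1 : Real.cos φ = -Real.sin y := by
    rw [hy, Real.sin_sub_pi_div_two]
    ring
  have e2 : Real.cos (11 * Real.pi / 20 - 2 / 5 * φ) =
      Real.sin (Real.pi / 6 + (2 / 5 * y - Real.pi / 60)) := by
    rw [← Real.sin_pi_div_two_sub]
    congr 1
    rw [hy]
    ring
  have e3 : Real.sin (Real.pi / 6 + (2 / 5 * y - Real.pi / 60)) ≤
      1 / 2 + Real.sqrt 3 / 2 * Real.sin (2 / 5 * y - Real.pi / 60) := by
    rw [Real.sin_add, Real.sin_pi_div_six, Real.cos_pi_div_six]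
    have := Real.cos_le_one (2 / 5 * y - Real.pi / 60)
    linarith
  have e4 := sin_le_add (2 / 5 * y - Real.pi / 60) (by linarith)
  have s3l : (17320 : ℝ) / 10000 < Real.sqrt 3 := by
    rw [Real.lt_sqrt (by norm_num)]
    norm_num
  have s3u : Real.sqrt 3 < 17321 / 10000 := by
    rw [Real.sqrt_lt' (by norm_num)]
    norm_num
  have e5 : Real.cos (11 * Real.pi / 20 - 2 / 5 * φ) ≤
      1 / 2 + 866 / 1000 * (2 / 5 * y - 4935 / 100000) + 1 / 10000 := by
    rw [e2]
    refine e3.trans ?_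
    have h5 : Real.sin (2 / 5 * y - Real.pi / 60) ≤ 2 / 5 * y - 4935 / 100000 := by
      linarith
    have h6 : Real.sqrt 3 / 2 * Real.sin (2 / 5 * y - Real.pi / 60) ≤
        Real.sqrt 3 / 2 * (2 / 5 * y - 4935 / 100000) :=
      mul_le_mul_of_nonneg_left h5 (by linarith)
    nlinarith
  have e6 := neg_sin_le y
  have e7 : max 0 y ^ 3 ≤ (3927 / 10000) ^ 3 := by
    apply pow_le_pow_left₀ (le_max_left _ _)
    apply max_le (by norm_num) hy1
  have e8 : y ≤ 0 → max 0 y ^ 3 = 0 := by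
    intro h
    rw [max_eq_left h]
    norm_num
  have e9 : 0 ≤ max 0 y ^ 3 := pow_nonneg (le_max_left _ _) 3
  norm_num at e7
  constructor
  · rw [e1]
    rcases le_or_gt y 0 with h | h
    · have := e8 h
      linarith
    · linarith
  · intro g hg hg'
    rw [e1]
    have h7 : g * Real.cos (11 * Real.pi / 20 - 2 / 5 * φ) ≤
        g * (1 / 2 + 866 / 1000 * (2 / 5 * y - 4935 / 100000) + 1 / 10000) :=
      mul_le_mul_of_nonneg_left e5 (by linarith)
    rcases le_or_gt y 0 with h | h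
    · have := e8 h
      nlinarith
    · nlinarith

private theorem interp {a b c T : ℝ} {g : ℝ} (hg : 1 < g) (h1 : a + b < 2 * c)
    (h2 : a + g * b ≤ c * (1 + g)) (hT1 : 1 ≤ T) (hT2 : T ≤ g) : a + T * b ≤ c * (1 + T) := by
  have h3 : 0 ≤ (g - T) := by linarith
  have h4 : 0 ≤ (T - 1) := by linarith
  have h5 := mul_le_mul_of_nonneg_left h1.le h3
  have h6 := mul_le_mul_of_nonneg_left h2 h4
  have h7 : (g - 1) * (a + T * b) ≤ (g - 1) * (c * (1 + T)) := by nlinarith
  exact le_of_mul_le_mul_left h7 (by linarith)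

private theorem interp' {a b c T : ℝ} {g : ℝ} (hg : 1 < g) (h1 : a + b < 2 * c)
    (h2 : a + g * b < c * (1 + g)) (hT1 : 1 ≤ T) (hT2 : T ≤ g) : a + T * b < c * (1 + T) := by
  rcases eq_or_lt_of_le hT1 with h | h
  · rw [← h]
    linarith
  · have h3 : 0 ≤ (g - T) := by linarith
    have h4 : 0 < (T - 1) := by linarith
    have h5 := mul_le_mul_of_nonneg_left h1.le h3
    have h6 := mul_lt_mul_of_pos_left h2 h4
    have h7 : (g - 1) * (a + T * b) < (g - 1) * (c * (1 + T)) := by nlinarith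
    exact lt_of_mul_lt_mul_left h7 (by linarith)

theorem pf_P4A (hNU3 : Pool.Agent.H58.FL.T_NU3) : Pool.Agent.H58.FL.T_P4A := by
  intro T φ γ hT1 hT2 hφ1 hφ2 hγ0 hγ1 hle
  obtain ⟨⟨g1, g2, g3⟩, -, -, -, -, ⟨s1, s2, -⟩, hsh⟩ := hNU3
  have hpi := Real.pi_pos
  have hpl : 3.1415 < Real.pi := Real.pi_gt_d4
  have hpu : Real.pi < 3.1416 := Real.pi_lt_d4
  have hgl : 2618 / 1000 < gr ^ 2 := by rw [g1]; linarith
  have hgu : gr ^ 2 < 26182 / 10000 := by rw [g1]; linarith
  have hT0 : 0 < T := by linarith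
  -- the second claim, on a larger interval
  have key : 5 * Real.pi / 8 ≤ φ → γ + 2 / 5 * φ ≤ 53 * Real.pi / 100 := by
    intro h58
    by_contra hcon
    push Not at hcon
    have h1 := sharp hgl hsh h58 hφ2
    have h2 : Real.cos φ + Real.cos (53 * Real.pi / 100 - 2 / 5 * φ) < 2 * S4 := by
      have h3 := Real.cos_le_one (53 * Real.pi / 100 - 2 / 5 * φ)
      have h4 : Real.cos φ ≤ Real.cos (5 * Real.pi / 8) :=
        Real.cos_le_cos_of_nonneg_of_le_pi (by linarith) (by linarith) h58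
      have h5 : Real.cos (5 * Real.pi / 8) = -Real.sin (Real.pi / 8) := by
        rw [← Real.cos_add_pi_div_two]
        congr 1
        ring
      have h6 := Real.sin_gt_sub_cube (x := Real.pi / 8) (by linarith)
      have h7 : (Real.pi / 8) ^ 3 ≤ (3928 / 10000) ^ 3 :=
        pow_le_pow_left₀ (by linarith) (by linarith) 3
      norm_num at h7
      linarith
    have h8 := interp (by linarith) h2 h1 hT1 hT2
    have h9 : Real.cos γ < Real.cos (53 * Real.pi / 100 - 2 / 5 * φ) :=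
      Real.cos_lt_cos_of_nonneg_of_le_pi (by linarith) hγ1 (by linarith)
    have h10 := mul_lt_mul_of_pos_left h9 hT0
    linarith
  refine ⟨?_, fun h => key (by linarith)⟩
  rcases le_or_gt (5 * Real.pi / 8) φ with h58 | h58
  · have := key h58
    linarith
  · by_contra hcon
    push Not at hcon
    obtain ⟨q1, q2⟩ := small hφ1 h58.le
    have q3 := q2 (gr ^ 2) hgu hgl
    have q4 : Real.cos φ + T * Real.cos (11 * Real.pi / 20 - 2 / 5 * φ) < S4 * (1 + T) := by
      apply interp' (g := gr ^ 2) (by linarith) (by linarith) ?_ hT1 hT2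
      nlinarith
    have h9 : Real.cos γ ≤ Real.cos (11 * Real.pi / 20 - 2 / 5 * φ) :=
      Real.cos_le_cos_of_nonneg_of_le_pi (by linarith) hγ1 (by linarith)
    have h10 := mul_le_mul_of_nonneg_left h9 hT0.le
    linarith

end Pool.Agent.H22.FL
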