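import Pool.Agent.H58.FL.TargetsD

/-!
# MP_6a7a6f_gt, board fld, row P4C: one edge of a wheel with four spokes, sum of the angles
-/

set_option autoImplicit false

namespace Pool.Agent.H22.FL

open Pool.Agent.H58.FL Pool.Agent.H59 Pool.Agent.H48.FR

private theorem bound_abs (a φ s : ℝ) (hs : 0 ≤ s) (h0 : 0 ≤ φ) (h1 : φ ≤ Real.pi) :
    a * Real.cos φ - s * Real.sin φ ≤ |a| := by
  have h2 := Real.sin_nonneg_of_nonneg_of_le_pi h0 h1
  have h3 := mul_nonneg hs h2
  have h4 : a * Real.cos φ ≤ |a| := by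
    refine (le_abs_self _).trans ?_
    rw [abs_mul]
    exact mul_le_of_le_one_right (abs_nonneg _) (Real.abs_cos_le_one _)
  linarith

private theorem cos_seven (φ : ℝ) : Real.cos (7 * Real.pi / 6 - φ) =
    -(Real.sqrt 3 / 2 * Real.cos φ) - 1 / 2 * Real.sin φ := by
  have e : 7 * Real.pi / 6 - φ = Real.pi - (φ - Real.pi / 6) := by ring
  rw [e, Real.cos_pi_sub, Real.cos_sub, Real.sin_pi_div_six, Real.cos_pi_div_six]
  ring

private theorem first {g S T φ γ : ℝ} (hg : 1 < g) (hgu : g < 26182 / 10000)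
    (hS : 371745 / 1000000 < S) (hT1 : g⁻¹ ≤ T) (hT2 : T ≤ g)
    (hφ1 : 3 * Real.pi / 20 ≤ φ) (hφ2 : φ ≤ 19 * Real.pi / 20) (hγ0 : 0 ≤ γ)
    (hγ1 : γ ≤ Real.pi) (hle : S * (1 + T) ≤ Real.cos φ + T * Real.cos γ) :
    φ + γ < 7 * Real.pi / 6 := by
  have hpi := Real.pi_pos
  by_contra hcon
  push Not at hcon
  have s3l : (17320 : ℝ) / 10000 < Real.sqrt 3 := by
    rw [Real.lt_sqrt (by norm_num)]
    norm_num
  have s3u : Real.sqrt 3 < 17321 / 10000 := by
    rw [Real.sqrt_lt' (by norm_num)]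
    norm_num
  have hTl : 381 / 1000 < T := by
    refine lt_of_lt_of_le ?_ hT1
    rw [lt_inv_comm₀ (by norm_num) (by linarith)]
    norm_num
    linarith
  have hT0 : 0 < T := by linarith
  rcases le_or_gt 1 T with h1 | h1
  · have h2 : Real.cos γ ≤ Real.cos (7 * Real.pi / 6 - φ) :=
      Real.cos_le_cos_of_nonneg_of_le_pi (by linarith) hγ1 (by linarith)
    have h3 := mul_le_mul_of_nonneg_left h2 hT0.le
    rw [cos_seven] at h3
    have h4 := bound_abs (1 - T * Real.sqrt 3 / 2) φ (T / 2) (by linarith) (by linarith)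
      (by linarith)
    have h5 : |1 - T * Real.sqrt 3 / 2| < S * (1 + T) := by
      rw [abs_lt]
      constructor
      · nlinarith
      · nlinarith
    nlinarith
  · have h2 : Real.cos φ ≤ Real.cos (7 * Real.pi / 6 - γ) :=
      Real.cos_le_cos_of_nonneg_of_le_pi (by linarith) (by linarith) (by linarith)
    rw [cos_seven] at h2
    have h4 := bound_abs (T - Real.sqrt 3 / 2) γ (1 / 2) (by norm_num) hγ0 hγ1
    have h5 : |T - Real.sqrt 3 / 2| < S * (1 + T) := by
      rw [abs_lt]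
      constructor
      · nlinarith
      · nlinarith
    nlinarith

private theorem cs (T φ γ : ℝ) : (Real.cos φ + T * Real.cos γ) ^ 2 ≤
    1 + T ^ 2 + 2 * T * Real.cos (φ + γ) := by
  rw [Real.cos_add]
  have h1 := Real.sin_sq_add_cos_sq φ
  have h2 := Real.sin_sq_add_cos_sq γ
  have h3 := sq_nonneg (Real.sin φ - T * Real.sin γ)
  nlinarith

private theorem cos_num : Real.cos (73 * Real.pi / 90) < -(826 / 1000) := by
  have hpi := Real.pi_pos
  have hpu : Real.pi < 3.1416 := Real.pi_lt_d4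
  have e : 73 * Real.pi / 90 = Real.pi - 2 * (17 * Real.pi / 180) := by ring
  rw [e, Real.cos_pi_sub, Real.cos_two_mul]
  have h1 := Real.cos_bound (x := 17 * Real.pi / 180) (by
    rw [abs_of_pos (by positivity)]
    linarith)
  rw [abs_of_pos (show 0 < 17 * Real.pi / 180 by positivity)] at h1
  have h2 := (abs_le.1 h1).1
  have h3 : (17 * Real.pi / 180) ^ 2 ≤ (29671 / 100000) ^ 2 :=
    pow_le_pow_left₀ (by positivity) (by linarith) 2
  have h4 : (17 * Real.pi / 180) ^ 4 ≤ (29671 / 100000) ^ 4 :=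
    pow_le_pow_left₀ (by positivity) (by linarith) 4
  norm_num at h3 h4
  have h5 : 9555 / 10000 < Real.cos (17 * Real.pi / 180) := by linarith
  nlinarith

private theorem second {S T φ γ : ℝ} (hg : gr ^ 2 = gr + 1) (hgl : 1618 / 1000 < gr)
    (hgu : gr < 16181 / 10000)
    (hS : 371745 / 1000000 < S) (hSu : S < 37175 / 100000) (hT1 : gr⁻¹ ≤ T) (hT2 : T ≤ gr)
    (_ : 3 * Real.pi / 20 ≤ φ) (hφ2 : φ ≤ 19 * Real.pi / 20) (_ : 0 ≤ γ)
    (hγ1 : γ ≤ Real.pi) (hle : S * (1 + T) ≤ Real.cos φ + T * Real.cos γ) :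
    φ + γ < 73 * Real.pi / 90 := by
  have hpi := Real.pi_pos
  have hginv : gr⁻¹ = gr - 1 := by
    have : gr ≠ 0 := by linarith
    field_simp
    linarith
  rw [hginv] at hT1
  have hT0 : 0 < T := by linarith
  have hsum : φ + γ < Real.pi := by
    by_contra hcon
    push Not at hcon
    rcases le_or_gt 1 T with h1 | h1
    · have h2 : Real.cos φ ≤ -Real.cos γ := by
        rw [← Real.cos_pi_sub]
        exact Real.cos_le_cos_of_nonneg_of_le_pi (by linarith) (by linarith) (by linarith)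
      have h3 := Real.cos_le_one γ
      have h4 := mul_le_mul_of_nonneg_left h3 (show 0 ≤ T - 1 by linarith)
      nlinarith
    · have h2 : Real.cos γ ≤ -Real.cos φ := by
        rw [← Real.cos_pi_sub]
        exact Real.cos_le_cos_of_nonneg_of_le_pi (by linarith) (by linarith) (by linarith)
      have h3 := Real.cos_le_one φ
      have h4 := mul_le_mul_of_nonneg_left h3 (show 0 ≤ 1 - T by linarith)
      have h5 := mul_le_mul_of_nonneg_left h2 hT0.le
      nlinarith
  by_contra hcon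
  push Not at hcon
  have h1 := cs T φ γ
  have h2 : (S * (1 + T)) ^ 2 ≤ (Real.cos φ + T * Real.cos γ) ^ 2 := by
    apply pow_le_pow_left₀ (by positivity) hle
  have h3 : Real.cos (φ + γ) ≤ Real.cos (73 * Real.pi / 90) :=
    Real.cos_le_cos_of_nonneg_of_le_pi (by linarith) hsum.le hcon
  have h4 := cos_num
  have h5 : 2 * T * Real.cos (φ + γ) ≤ 2 * T * (-(826 / 1000)) :=
    mul_le_mul_of_nonneg_left (by linarith) (by linarith)
  -- `T ^ 2 + 1 ≤ (2 gr - 1) T`
  have h6 : T ^ 2 + 1 ≤ (2 * gr - 1) * T := by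
    have : 0 ≤ (T - (gr - 1)) * (gr - T) := mul_nonneg (by linarith) (by linarith)
    nlinarith
  have h7 : (371745 / 1000000) ^ 2 < S ^ 2 := pow_lt_pow_left₀ hS (by norm_num) (by norm_num)
  have h8 : (S * (1 + T)) ^ 2 ≤ 1 + T ^ 2 + 2 * T * (-(826 / 1000)) := by linarith
  have h9 : (371745 / 1000000) ^ 2 * (1 + T) ^ 2 ≤ (S * (1 + T)) ^ 2 := by
    rw [mul_pow]
    exact mul_le_mul_of_nonneg_right h7.le (sq_nonneg _)
  have h10 : (1 - (371745 / 1000000) ^ 2) * (T ^ 2 + 1) ≤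
      (1 - (371745 / 1000000) ^ 2) * ((22362 / 10000) * T) := by
    apply mul_le_mul_of_nonneg_left _ (by norm_num)
    nlinarith
  norm_num at h9 h10
  nlinarith

theorem pf_P4C (hNU3 : Pool.Agent.H58.FL.T_NU3) : Pool.Agent.H58.FL.T_P4C := by
  intro T φ γ hT1 hT2 hφ1 hφ2 hγ0 hγ1 hle
  obtain ⟨⟨g1, g2, g3⟩, -, -, -, -, ⟨s1, s2, -⟩, hsh⟩ := hNU3
  have hpi := Real.pi_pos
  have hgl : 2618 / 1000 < gr ^ 2 := by rw [g1]; linarith
  have hgu : gr ^ 2 < 26182 / 10000 := by rw [g1]; linarith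
  refine ⟨first (by linarith) hgu s1 hT1 hT2 hφ1 hφ2 hγ0 hγ1 hle,
    fun h1 h2 => second g1 g2 g3 s1 s2 h1 h2 hφ1 hφ2 hγ0 hγ1 hle, fun h1 => ?_⟩
  by_contra hcon
  push Not at hcon
  have hT0 : 0 < T := lt_of_lt_of_le (inv_pos.2 (by linarith)) hT1
  have h2 : Real.cos φ ≤ Real.cos (7 * Real.pi / 12) :=
    Real.cos_le_cos_of_nonneg_of_le_pi (by linarith) (by linarith) hcon
  have e : 7 * Real.pi / 12 = Real.pi / 3 + Real.pi / 4 := by ring
  rw [e, Real.cos_add, Real.cos_pi_div_three, Real.cos_pi_div_four, Real.sin_pi_div_three,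
    Real.sin_pi_div_four] at h2
  have s3l : (17320 : ℝ) / 10000 < Real.sqrt 3 := by
    rw [Real.lt_sqrt (by norm_num)]
    norm_num
  have s2l : (14142 : ℝ) / 10000 < Real.sqrt 2 := by
    rw [Real.lt_sqrt (by norm_num)]
    norm_num
  have h3 := Real.cos_le_one γ
  have h4 := mul_le_mul_of_nonneg_left h3 hT0.le
  have h5 : 0 ≤ (1 - T) * (1 - S4) := mul_nonneg (by linarith) (by linarith)
  nlinarith [mul_pos (show 0 < Real.sqrt 2 by linarith) (show 0 < Real.sqrt 3 - 17320/10000 by linarith)]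

end Pool.Agent.H22.FL
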